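import Mathlib

namespace Pool.Agent.Results.MP_87e037_al.Exists

open Polynomial

variable {K : Type*} [Field K]

/-- `τ_i = ∏_{h<i} (λ - θ_h)`. -/
noncomputable def tau (θ : ℕ → K) (i : ℕ) : K[X] :=
  ∏ h ∈ Finset.range i, (X - C (θ h))

/-- `ρ_i = ∏_{h<i} (λ - θ_{d-h})`. -/
noncomputable def rho (θ : ℕ → K) (d i : ℕ) : K[X] :=
  ∏ h ∈ Finset.range i, (X - C (θ (d - h)))

/-- Lowering maps on the space `V` of polynomials of degree at most `d`. -/
def IsLoweringMap (θ : ℕ → K) (d : ℕ) (Ψ : degreeLE K (d : WithBot ℕ) →ₗ[K] degreeLE K (d : WithBot ℕ)) :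
    Prop :=
  (∀ v : degreeLE K (d : WithBot ℕ), (v : K[X]) = tau θ 0 → Ψ v = 0) ∧
  (∀ v : degreeLE K (d : WithBot ℕ), (v : K[X]) = rho θ d 0 → Ψ v = 0) ∧
  (∀ i, 1 ≤ i → i ≤ d → ∀ v : degreeLE K (d : WithBot ℕ), (v : K[X]) = tau θ i →
    (Ψ v : K[X]) ∈ Submodule.span K {tau θ (i - 1)}) ∧
  (∀ i, 1 ≤ i → i ≤ d → ∀ v : degreeLE K (d : WithBot ℕ), (v : K[X]) = rho θ d i →
    (Ψ v : K[X]) ∈ Submodule.span K {rho θ d (i - 1)})

/-! ### Two-sided recurrent sequences -/

/-- The affine shift. -/
def shift (b g : K) : Equiv.Perm (K × K) where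
  toFun p := (p.2, b * p.2 - p.1 + g)
  invFun p := (b * p.1 - p.2 + g, p.1)
  left_inv p := by
    ext
    · show b * p.2 - (b * p.2 - p.1 + g) + g = p.1
      ring
    · rfl
  right_inv p := by
    ext
    · rfl
    · show b * p.1 - (b * p.1 - p.2 + g) + g = p.2
      ring

theorem exists_seq (b g u v : K) : ∃ t : ℤ → K, t 0 = u ∧ t 1 = v ∧
    ∀ i, t (i + 2) = b * t (i + 1) - t i + g := by
  refine ⟨fun i => ((shift b g ^ i) (u, v)).1, by simp, by simp [shift], fun i => ?_⟩
  have h1 : ∀ j : ℤ, (shift b g ^ (j + 1)) (u, v) = shift b g ((shift b g ^ j) (u, v)) := by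
    intro j
    rw [add_comm, zpow_one_add]; rfl
  have h2 : i + 2 = (i + 1) + 1 := by ring
  rw [h2]
  simp only [h1]
  simp [shift]

/-- Partial products along a sequence. -/
noncomputable def pr (s : ℕ → K) (i : ℕ) : K[X] := ∏ h ∈ Finset.range i, (X - C (s h))

theorem pr_succ (s : ℕ → K) (i : ℕ) : pr s (i + 1) = pr s i * (X - C (s i)) := by
  rw [pr, Finset.prod_range_succ]; rfl

theorem X_mul_pr (s : ℕ → K) (i : ℕ) : X * pr s i = C (s i) * pr s i + pr s (i + 1) := by
  rw [pr_succ]; ring

theorem pr_monic (s : ℕ → K) (i : ℕ) : (pr s i).Monic :=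
  monic_prod_of_monic _ _ fun _ _ => monic_X_sub_C _

theorem pr_degree (s : ℕ → K) (i : ℕ) : (pr s i).degree = i := by
  induction i with
  | zero => simp [pr]
  | succ n ih => rw [pr_succ, degree_mul, ih, degree_X_sub_C]; norm_cast

/-- The sequence of the partial products. -/
noncomputable def prS (s : ℕ → K) : Polynomial.Sequence K := ⟨pr s, pr_degree s⟩

theorem exists_lower (s x : ℕ → K) : ∃ P : K[X] →ₗ[K] K[X], ∀ i,
    P (pr s i) = x i • pr s (i - 1) := by
  have h : ∀ i, IsUnit (prS s i).leadingCoeff := by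
    intro i
    have : (prS s i).leadingCoeff = 1 := (pr_monic s i).leadingCoeff
    rw [this]; exact isUnit_one
  refine ⟨((prS s).basis h).constr K (fun i => x i • pr s (i - 1)), fun i => ?_⟩
  have h1 : pr s i = (prS s).basis h i := by
    rw [Polynomial.Sequence.basis_eq_self]; rfl
  rw [h1, Module.Basis.constr_basis]

/-- The basic cubic relation. -/
def Rel (b g r a c : K) (P : K[X] →ₗ[K] K[X]) : Prop := ∀ f : K[X],
  X ^ 2 * P f - C b * (X * P (X * f)) + P (X ^ 2 * f) - C g * (X * P f + P (X * f)) - C r * P f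
    = C a * (X * f) + C c * f

theorem rel_ext {b g r a c : K} {P : K[X] →ₗ[K] K[X]} (s : ℕ → K)
    (h : ∀ i, X ^ 2 * P (pr s i) - C b * (X * P (X * pr s i)) + P (X ^ 2 * pr s i) -
      C g * (X * P (pr s i) + P (X * pr s i)) - C r * P (pr s i)
        = C a * (X * pr s i) + C c * pr s i) : Rel b g r a c P := by
  have hu : ∀ i, IsUnit (prS s i).leadingCoeff := by
    intro i
    have : (prS s i).leadingCoeff = 1 := (pr_monic s i).leadingCoeff
    rw [this]; exact isUnit_one
  let mX : K[X] →ₗ[K] K[X] := LinearMap.mulLeft K X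
  let L : K[X] →ₗ[K] K[X] := mX ∘ₗ mX ∘ₗ P - b • (mX ∘ₗ P ∘ₗ mX) + P ∘ₗ mX ∘ₗ mX
    - g • (mX ∘ₗ P + P ∘ₗ mX) - r • P
  let R : K[X] →ₗ[K] K[X] := a • mX + c • LinearMap.id
  have hL : ∀ f, L f = X ^ 2 * P f - C b * (X * P (X * f)) + P (X ^ 2 * f)
      - C g * (X * P f + P (X * f)) - C r * P f := by
    intro f
    have e1 : X * (X * f) = X ^ 2 * f := by ring
    simp only [L, mX, LinearMap.sub_apply, LinearMap.add_apply, LinearMap.smul_apply,
      LinearMap.comp_apply, LinearMap.mulLeft_apply, smul_eq_C_mul, e1]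
    ring
  have hR : ∀ f, R f = C a * (X * f) + C c * f := by
    intro f
    simp only [R, mX, LinearMap.add_apply, LinearMap.smul_apply, LinearMap.mulLeft_apply,
      smul_eq_C_mul, LinearMap.id_apply]
  have hLR : L = R := by
    refine ((prS s).basis hu).ext fun i => ?_
    rw [Polynomial.Sequence.basis_eq_self, hL, hR]
    exact h i
  intro f
  rw [← hL, ← hR, hLR]

theorem rel_of_seq {b g r a c : K} (s x : ℕ → K) (P : K[X] →ₗ[K] K[X])
    (hP : ∀ i, P (pr s i) = x i • pr s (i - 1)) (hx0 : x 0 = 0)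
    (hr : ∀ i, s i ^ 2 - b * s i * s (i + 1) + s (i + 1) ^ 2 - g * (s i + s (i + 1)) = r)
    (ha : ∀ i, x i - b * x (i + 1) + x (i + 2) = a)
    (hc : ∀ i, x (i + 1) * (s i + s (i + 1) - b * s (i + 1) - g) +
      x (i + 2) * (s (i + 1) + s (i + 2) - b * s (i + 1) - g) = a * s (i + 1) + c)
    (hc0 : x 1 * (s 0 + s 1 - b * s 0 - g) = a * s 0 + c) : Rel b g r a c P := by
  have hP' : ∀ i, P (pr s i) = C (x i) * pr s (i - 1) := by
    intro i; rw [hP, smul_eq_C_mul]
  have hPc : ∀ (k : K) (f : K[X]), P (C k * f) = C k * P f := by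
    intro k f; rw [← smul_eq_C_mul, map_smul, smul_eq_C_mul]
  apply rel_ext s
  intro i
  have e1 : X * pr s i = C (s i) * pr s i + pr s (i + 1) := X_mul_pr s i
  have e2 : X * pr s (i + 1) = C (s (i + 1)) * pr s (i + 1) + pr s (i + 2) := X_mul_pr s (i + 1)
  have e3 : X ^ 2 * pr s i = C (s i) * (C (s i) * pr s i + pr s (i + 1)) +
      (C (s (i + 1)) * pr s (i + 1) + pr s (i + 2)) := by
    linear_combination (X : K[X]) * e1 + C (s i) * e1 + e2
  rw [e3]
  rw [e1]
  simp only [map_add, hPc, hP']
  rcases i with _ | i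
  · have h0 : pr s 0 = 1 := by simp [pr]
    have h1 : pr s 1 = X - C (s 0) := by simp [pr]
    have hA := ha 0
    simp only [Nat.zero_sub, zero_add, Nat.sub_self, hx0, map_zero, zero_mul, mul_zero, h0,
      Nat.reduceSub, h1] at *
    have hA' : x 2 = a + b * x 1 := by linear_combination hA
    have hc' : C (x 1) * (C (s 0) + C (s 1) - C b * C (s 0) - C g) = C a * C (s 0) + C c := by
      rw [← C_mul, ← C_mul, ← C_add, ← C_add, ← C_sub, ← C_sub, ← C_mul, hc0]
    rw [hA']
    simp only [map_add, map_mul]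
    linear_combination hc'
  · have hA := ha (i + 1)
    have e0 : X * pr s i = C (s i) * pr s i + pr s (i + 1) := X_mul_pr s i
    simp only [Nat.add_sub_cancel, show i + 1 + 1 - 1 = i + 1 from rfl,
      show i + 1 + 2 - 1 = i + 2 from rfl, show i + 1 + 1 = i + 2 from rfl,
      show i + 1 + 2 = i + 3 from rfl] at *
    have hA' : x (i + 3) = a + b * x (i + 2) - x (i + 1) := by linear_combination hA
    have hc' : C (x (i + 1)) * (C (s i) + C (s (i + 1)) - C b * C (s (i + 1)) - C g) +
        C (x (i + 2)) * (C (s (i + 1)) + C (s (i + 2)) - C b * C (s (i + 1)) - C g)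
          = C a * C (s (i + 1)) + C c := by
      have := congrArg (C : K →+* K[X]) (hc i)
      simpa only [map_add, map_mul, map_sub] using this
    have hr' : C (s i) ^ 2 - C b * C (s i) * C (s (i + 1)) + C (s (i + 1)) ^ 2
        - C g * (C (s i) + C (s (i + 1))) = C r := by
      have := congrArg (C : K →+* K[X]) (hr i)
      simpa only [map_add, map_mul, map_sub, map_pow] using this
    rw [hA']
    simp only [map_add, map_mul, map_sub]
    generalize hp0 : pr s i = p0 at *
    generalize hp1 : pr s (i + 1) = p1 at *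
    generalize hp2 : pr s (i + 2) = p2 at *
    have f1 : p1 = (X - C (s i)) * p0 := by linear_combination -e0
    have f2 : p2 = (X - C (s (i + 1))) * p1 := by linear_combination -e1
    rw [f2, f1]
    linear_combination (X - C (s i)) * p0 * hc' + C (x (i + 1)) * p0 * hr'

theorem eq_zero_of_rel {b g r : K} (D : K[X] →ₗ[K] K[X]) (h : Rel b g r 0 0 D)
    (h0 : D 1 = 0) (h1 : D X = 0) : D = 0 := by
  have key : ∀ k : ℕ, D (X ^ k) = 0 := by
    intro k
    induction k using Nat.strong_induction_on with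
    | _ k ih =>
      rcases k with _ | _ | k
      · simpa using h0
      · simpa using h1
      · have h2 := h (X ^ k)
        have e1 : D (X ^ k) = 0 := ih k (by omega)
        have e2 : D (X * X ^ k) = 0 := by
          rw [← pow_succ']; exact ih (k + 1) (by omega)
        have e3 : X ^ 2 * X ^ k = (X : K[X]) ^ (k + 2) := by ring
        rw [e1, e2, e3] at h2
        simpa using h2
  refine (Polynomial.basisMonomials K).ext fun k => ?_
  rw [coe_basisMonomials]
  simpa [X_pow_eq_monomial] using key k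

theorem rel_sub {b g r a c : K} {P Q : K[X] →ₗ[K] K[X]} (hP : Rel b g r a c P)
    (hQ : Rel b g r a c Q) : Rel b g r 0 0 (P - Q) := by
  intro f
  have h1 := hP f
  have h2 := hQ f
  simp only [LinearMap.sub_apply, map_zero, zero_mul]
  linear_combination h1 - h2

omit [Field K] in
theorem int_const {f : ℤ → K} (h : ∀ i, f (i + 1) = f i) (i : ℤ) : f i = f 0 := by
  induction i using Int.induction_on with
  | zero => rfl
  | succ n ih => rw [h, ih]
  | pred n ih =>
    rw [← ih, ← h (-(n : ℤ) - 1)]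
    congr 1; ring

omit [Field K] in
theorem nat_const {f : ℕ → K} (h : ∀ i, f (i + 1) = f i) (i : ℕ) : f i = f 0 := by
  induction i with
  | zero => rfl
  | succ n ih => rw [h, ih]

section core

variable (b g : K) (t : ℤ → K)

theorem quad_const (ht : ∀ i, t (i + 2) = b * t (i + 1) - t i + g) (i : ℤ) :
    t i ^ 2 - b * t i * t (i + 1) + t (i + 1) ^ 2 - g * (t i + t (i + 1)) =
      t 0 ^ 2 - b * t 0 * t 1 + t 1 ^ 2 - g * (t 0 + t 1) := by
  have := int_const (f := fun i => t i ^ 2 - b * t i * t (i + 1) + t (i + 1) ^ 2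
    - g * (t i + t (i + 1))) (fun i => by
      have e : i + 1 + 1 = i + 2 := by ring
      simp only [e, ht i]
      ring) i
  simpa using this

theorem W_const (ht : ∀ i, t (i + 2) = b * t (i + 1) - t i + g) (a : K) (x : ℕ → K)
    (ha : ∀ i, x i - b * x (i + 1) + x (i + 2) = a) (i : ℕ) :
    x i * (t i - t (i + 1)) + x (i + 1) * (t i - t (i - 1)) - a * t i =
      x 0 * (t 0 - t 1) + x 1 * (t 0 - t (-1)) - a * t 0 := by
  have := nat_const (f := fun i : ℕ => x i * (t i - t (i + 1)) + x (i + 1) * (t i - t (i - 1))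
      - a * t i) (fun i => by
      have h1 := ht i
      have h2 := ht ((i : ℤ) - 1)
      have h3 : (i : ℤ) - 1 + 2 = i + 1 := by ring
      have h4 : (i : ℤ) - 1 + 1 = i := by ring
      rw [h3, h4] at h2
      have h5 := ha i
      have e1 : i + 1 + 1 = i + 2 := by ring
      have e2 : (i : ℤ) + 1 + 1 = i + 2 := by ring
      have e3 : (i : ℤ) + 1 - 1 = i := by ring
      simp only [Nat.cast_add, Nat.cast_one, e1, e2, e3]
      linear_combination (t (i + 1) - t i) * h5 - x (i + 1) * h1 + x (i + 1) * h2) i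
  simpa using this

/-- The double sequence. -/
def xs (d : ℕ) (i : ℕ) : K := ∑ h ∈ Finset.range i, (t h - t (d - h))

theorem xs_succ (d i : ℕ) : xs t d (i + 1) = xs t d i + (t i - t (d - i)) := by
  rw [xs, Finset.sum_range_succ]; rfl

theorem xs_zero (d : ℕ) : xs t d 0 = 0 := by simp [xs]

theorem xs_one (d : ℕ) : xs t d 1 = t 0 - t d := by simp [xs]

theorem xs_last (d : ℕ) : xs t d (d + 1) = 0 := by
  rw [xs, Finset.sum_sub_distrib, sub_eq_zero]
  rw [← Finset.sum_range_reflect (fun h : ℕ => t (h : ℤ))]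
  refine Finset.sum_congr rfl fun h hh => ?_
  rw [Finset.mem_range] at hh
  congr 1
  omega

theorem xs_d (d : ℕ) : xs t d d = xs t d 1 := by
  have h1 := xs_last t d
  rw [xs_succ, sub_self] at h1
  rw [xs_one]
  linear_combination h1

theorem xs_rec (ht : ∀ i, t (i + 2) = b * t (i + 1) - t i + g) (d i : ℕ) :
    xs t d i - b * xs t d (i + 1) + xs t d (i + 2) = xs t d 2 - b * xs t d 1 := by
  have := nat_const (f := fun i : ℕ => xs t d i - b * xs t d (i + 1) + xs t d (i + 2)) (fun i => by
      have e1 : i + 1 + 2 = i + 2 + 1 := by ring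
      have e2 : i + 1 + 1 = i + 2 := by ring
      have h1 := xs_succ t d i
      have h2 := xs_succ t d (i + 1)
      have h3 := xs_succ t d (i + 2)
      have h4 := ht i
      have h5 := ht (d - (i + 2))
      have h6 : (d : ℤ) - (i + 2) + 2 = d - i := by ring
      have h7 : (d : ℤ) - (i + 2) + 1 = d - (i + 1) := by ring
      rw [h6, h7] at h5
      simp only [Nat.cast_add, Nat.cast_one, Nat.cast_ofNat, e1, e2] at *
      linear_combination h1 - b * h2 + h3 + h4 - h5) i
  simp only [Nat.zero_add, xs_zero] at this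
  rw [this]; ring

theorem core (ht : ∀ i, t (i + 2) = b * t (i + 1) - t i + g) (d : ℕ) :
    ∃ P : K[X] →ₗ[K] K[X],
      (∀ i, P (pr (fun i => t i) i) = xs t d i • pr (fun i => t i) (i - 1)) ∧
      (∀ i, P (pr (fun i => t (d - i)) i) = xs t d i • pr (fun i => t (d - i)) (i - 1)) ∧
      ∀ k : ℕ, (P (X ^ k)).degree < (k : WithBot ℕ) := by
  obtain ⟨P, hP⟩ := exists_lower (fun i : ℕ => t i) (xs t d)
  obtain ⟨Q, hQ⟩ := exists_lower (fun i : ℕ => t (d - i)) (xs t d)
  set a : K := xs t d 2 - b * xs t d 1 with ha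
  set c : K := xs t d 1 * (t 0 - t (-1)) - a * t 0 with hc
  set r : K := t 0 ^ 2 - b * t 0 * t 1 + t 1 ^ 2 - g * (t 0 + t 1) with hr
  -- reversed sequence
  have ht' : ∀ i, (fun j : ℤ => t (d - j)) (i + 2) = b * (fun j : ℤ => t (d - j)) (i + 1) -
      (fun j : ℤ => t (d - j)) i + g := by
    intro i
    have h := ht (d - (i + 2))
    have h6 : (d : ℤ) - (i + 2) + 2 = d - i := by ring
    have h7 : (d : ℤ) - (i + 2) + 1 = d - (i + 1) := by ring
    rw [h6, h7] at h
    show t (d - (i + 2)) = b * t (d - (i + 1)) - t (d - i) + g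
    rw [h]; ring
  have hW := W_const b g t ht a (xs t d) (xs_rec b g t ht d)
  have hW' := W_const b g (fun j : ℤ => t (d - j)) ht' a (xs t d) (xs_rec b g t ht d)
  have hcd : xs t d 1 * (t d - t (d + 1)) - a * t d = c := by
    have h := hW d
    rw [xs_last, xs_d, xs_zero] at h
    rw [hc]
    linear_combination h
  have hP1 : Rel b g r a c P := by
    refine rel_of_seq (fun i : ℕ => t i) (xs t d) P hP (xs_zero t d) ?_ (xs_rec b g t ht d) ?_ ?_
    · intro i
      have := quad_const b g t ht i
      push_cast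
      rw [this]
    · intro i
      have h1 := hW (i + 1)
      have h2 := ht i
      push_cast at h1 ⊢
      have e1 : (i : ℤ) + 1 + 1 = i + 2 := by ring
      have e2 : (i : ℤ) + 1 - 1 = i := by ring
      have e3 : i + 1 + 1 = i + 2 := by ring
      rw [e1, e2, xs_zero] at h1
      rw [hc]
      linear_combination h1 + (xs t d (i + 1) + xs t d (i + 2)) * h2
    · have h2 := ht (-1)
      have e1 : (-1 : ℤ) + 2 = 1 := by norm_num
      have e2 : (-1 : ℤ) + 1 = 0 := by norm_num
      rw [e1, e2] at h2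
      push_cast
      rw [hc]
      linear_combination xs t d 1 * h2
  have hQ1 : Rel b g r a c Q := by
    refine rel_of_seq (fun i : ℕ => t (d - i)) (xs t d) Q hQ (xs_zero t d) ?_
      (xs_rec b g t ht d) ?_ ?_
    · intro i
      have h1 := quad_const b g t ht (d - (i + 1))
      have e1 : (d : ℤ) - (i + 1) + 1 = d - i := by ring
      rw [e1] at h1
      push_cast
      rw [hr]
      linear_combination h1
    · intro i
      have h1 := hW' (i + 1)
      have h2 := ht' i
      simp only [] at h1 h2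
      push_cast at h1 h2 ⊢
      have e1 : (i : ℤ) + 1 + 1 = i + 2 := by ring
      have e2 : (i : ℤ) + 1 - 1 = i := by ring
      have e3 : i + 1 + 1 = i + 2 := by ring
      rw [e1, e2, xs_zero] at h1
      have e4 : (d : ℤ) - (-1) = d + 1 := by ring
      rw [e4, sub_zero] at h1
      linear_combination h1 + (xs t d (i + 1) + xs t d (i + 2)) * h2 + hcd
    · have h2 := ht (d - 1)
      have e1 : (d : ℤ) - 1 + 2 = d + 1 := by ring
      have e2 : (d : ℤ) - 1 + 1 = d := by ring
      rw [e1, e2] at h2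
      push_cast
      rw [sub_zero]
      linear_combination hcd + xs t d 1 * h2
  have hPQ : P = Q := by
    rw [← sub_eq_zero]
    have hP0 := hP 0
    have hQ0 := hQ 0
    have hP1' := hP 1
    have hQ1' := hQ 1
    simp only [pr, Finset.range_zero, Finset.prod_empty, xs_zero, zero_smul, Finset.range_one,
      Finset.prod_singleton, Nat.cast_zero, sub_zero, Nat.sub_self] at hP0 hQ0 hP1' hQ1'
    refine eq_zero_of_rel _ (rel_sub hP1 hQ1) ?_ ?_
    · rw [LinearMap.sub_apply, hP0, hQ0, sub_self]
    · have hC : ∀ (k : K) (F : K[X] →ₗ[K] K[X]), F 1 = 0 → F (C k) = 0 := by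
        intro k F hF
        have : C k = k • (1 : K[X]) := by rw [smul_eq_C_mul, mul_one]
        rw [this, map_smul, hF, smul_zero]
      rw [map_sub, hC _ _ hP0, sub_zero] at hP1'
      rw [map_sub, hC _ _ hQ0, sub_zero] at hQ1'
      rw [LinearMap.sub_apply, hP1', hQ1', sub_self]
  refine ⟨P, hP, fun i => ?_, ?_⟩
  · rw [hPQ]; exact hQ i
  · intro k
    induction k using Nat.strong_induction_on with
    | _ k ih =>
      rcases k with _ | _ | k
      · have hP0 := hP 0
        simp only [pr, Finset.range_zero, Finset.prod_empty, xs_zero, zero_smul] at hP0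
        rw [pow_zero, hP0, degree_zero]
        exact WithBot.bot_lt_coe _
      · have hP0 := hP 0
        have hP1' := hP 1
        simp only [pr, Finset.range_zero, Finset.prod_empty, xs_zero, zero_smul, Finset.range_one,
          Finset.prod_singleton, Nat.cast_zero, Nat.sub_self] at hP0 hP1'
        have hC : P (C (t 0)) = 0 := by
          have : C (t 0) = t 0 • (1 : K[X]) := by rw [smul_eq_C_mul, mul_one]
          rw [this, map_smul, hP0, smul_zero]
        rw [map_sub, hC, sub_zero] at hP1'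
        rw [zero_add, pow_one, hP1', smul_eq_C_mul, mul_one]
        exact lt_of_le_of_lt degree_C_le (by norm_num)
      · have h := hP1 (X ^ k)
        have e1 : (X : K[X]) * X ^ k = X ^ (k + 1) := by ring
        have e2 : (X : K[X]) ^ 2 * X ^ k = X ^ (k + 2) := by ring
        rw [e1, e2] at h
        have i0 := ih k (by omega)
        have i1 := ih (k + 1) (by omega)
        have h3 : P (X ^ (k + 2)) = C a * X ^ (k + 1) + C c * X ^ k - X ^ 2 * P (X ^ k) +
            C b * (X * P (X ^ (k + 1))) + C g * (X * P (X ^ k) + P (X ^ (k + 1)))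
            + C r * P (X ^ k) := by linear_combination h
        have hlt : ∀ f : K[X], f ∈ degreeLT K (k + 2) ↔ f.degree < ((k + 2 : ℕ) : WithBot ℕ) :=
          fun f => mem_degreeLT
        show (P (X ^ (k + 2))).degree < ((k + 2 : ℕ) : WithBot ℕ)
        rw [h3, ← hlt]
        have hX : ∀ (f : K[X]) (m : ℕ), f.degree < (m : WithBot ℕ) →
            (X * f).degree < ((m + 1 : ℕ) : WithBot ℕ) := by
          intro f m hf
          by_cases h0 : f = 0
          · rw [h0, mul_zero, degree_zero]; exact WithBot.bot_lt_coe _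
          · rw [degree_mul, degree_X, degree_eq_natDegree h0] at *
            norm_cast at hf ⊢
            omega
        have hC : ∀ (k' : K) (f : K[X]), f ∈ degreeLT K (k + 2) → C k' * f ∈ degreeLT K (k + 2) := by
          intro k' f hf
          rw [← smul_eq_C_mul]; exact Submodule.smul_mem _ _ hf
        have m0 : P (X ^ k) ∈ degreeLT K (k + 2) := by
          rw [hlt]; exact lt_trans i0 (by norm_cast; omega)
        have m0' : X * P (X ^ k) ∈ degreeLT K (k + 2) := by
          rw [hlt]; exact lt_trans (hX _ _ i0) (by norm_cast; omega)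
        have m0'' : X ^ 2 * P (X ^ k) ∈ degreeLT K (k + 2) := by
          rw [hlt, pow_two, mul_assoc]; exact hX _ _ (hX _ _ i0)
        have m1 : P (X ^ (k + 1)) ∈ degreeLT K (k + 2) := by
          rw [hlt]; exact lt_trans i1 (by norm_cast; omega)
        have m1' : X * P (X ^ (k + 1)) ∈ degreeLT K (k + 2) := by
          rw [hlt]; exact hX _ _ i1
        have n0 : (X : K[X]) ^ k ∈ degreeLT K (k + 2) := by
          rw [hlt, degree_X_pow]; norm_cast; omega
        have n1 : (X : K[X]) ^ (k + 1) ∈ degreeLT K (k + 2) := by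
          rw [hlt, degree_X_pow]; norm_cast; omega
        exact Submodule.add_mem _ (Submodule.add_mem _ (Submodule.add_mem _ (Submodule.sub_mem _
          (Submodule.add_mem _ (hC _ _ n1) (hC _ _ n0)) m0'') (hC _ _ m1'))
          (hC _ _ (Submodule.add_mem _ m0' m1))) (hC _ _ m0)

end core

theorem maps_degreeLE (P : K[X] →ₗ[K] K[X])
    (hP : ∀ k : ℕ, (P (X ^ k)).degree < (k : WithBot ℕ)) (d : ℕ) :
    ∀ f ∈ degreeLE K (d : WithBot ℕ), P f ∈ degreeLE K (d : WithBot ℕ) := by
  classical
  intro f hf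
  rw [degreeLE_eq_span_X_pow] at hf
  induction hf using Submodule.span_induction with
  | mem f hf =>
    simp only [Finset.coe_image, Finset.coe_range, Set.mem_image, Set.mem_Iio] at hf
    obtain ⟨k, hk, rfl⟩ := hf
    rw [mem_degreeLE]
    refine le_trans (hP k).le ?_
    norm_cast; omega
  | zero => rw [map_zero]; exact Submodule.zero_mem _
  | add x y _ _ hx hy => rw [map_add]; exact Submodule.add_mem _ hx hy
  | smul c x _ hx => rw [map_smul]; exact Submodule.smul_mem _ _ hx

/-- **Q1 (proved).** For every field `K`, every `d ≥ 1` and every sequence of pairwise distinct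
`θ_0, …, θ_d` satisfying condition (*), there exists a nonzero lowering map on `V`. -/
theorem result {K : Type*} [Field K] (d : ℕ) (hd : 1 ≤ d) (θ : ℕ → K)
    (hθ : ∀ i j, i ≤ d → j ≤ d → θ i = θ j → i = j)
    (hstar : ∀ i j, 2 ≤ i → i ≤ d - 1 → 2 ≤ j → j ≤ d - 1 →
      (θ (i - 2) - θ (i + 1)) * (θ (i - 1) - θ i)⁻¹ =
        (θ (j - 2) - θ (j + 1)) * (θ (j - 1) - θ j)⁻¹) :
    ∃ Ψ : degreeLE K (d : WithBot ℕ) →ₗ[K] degreeLE K (d : WithBot ℕ),
      Ψ ≠ 0 ∧ IsLoweringMap θ d Ψ := by
  set b : K := (θ (2 - 2) - θ (2 + 1)) * (θ (2 - 1) - θ 2)⁻¹ - 1 with hb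
  set g : K := θ 0 - b * θ 1 + θ 2 with hg
  have hrec0 : ∀ i, 2 ≤ i → i + 1 ≤ d →
      θ (i - 2) - θ (i + 1) = (b + 1) * (θ (i - 1) - θ i) := by
    intro i h2 hi
    have h := hstar i 2 h2 (by omega) le_rfl (by omega)
    have hne : θ (i - 1) - θ i ≠ 0 := by
      rw [sub_ne_zero]
      intro he
      have := hθ _ _ (by omega) (by omega) he
      omega
    have h1 : (b + 1) = (θ (i - 2) - θ (i + 1)) * (θ (i - 1) - θ i)⁻¹ := by
      rw [hb, h]; ring
    rw [h1, mul_assoc, inv_mul_cancel₀ hne, mul_one]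
  have hrec : ∀ i, i + 2 ≤ d → θ i - b * θ (i + 1) + θ (i + 2) = g := by
    intro i
    induction i with
    | zero => intro _; rw [hg]
    | succ i ih =>
      intro hi
      have h1 := ih (by omega)
      have h2 := hrec0 (i + 2) (by omega) (by omega)
      have e1 : i + 2 - 2 = i := by omega
      have e2 : i + 2 + 1 = i + 3 := by omega
      have e3 : i + 2 - 1 = i + 1 := by omega
      have e4 : i + 1 + 1 = i + 2 := by omega
      have e5 : i + 1 + 2 = i + 3 := by omega
      rw [e1, e2, e3] at h2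
      rw [e4, e5]
      linear_combination h1 - h2
  obtain ⟨t, ht0, ht1, ht⟩ := exists_seq b g (θ 0) (θ 1)
  have hteq : ∀ i : ℕ, i ≤ d → t i = θ i := by
    intro i
    induction i using Nat.strong_induction_on with
    | _ i ih =>
      intro hi
      rcases i with _ | _ | i
      · simpa using ht0
      · simpa using ht1
      · have h1 := ih i (by omega) (by omega)
        have h2 := ih (i + 1) (by omega) (by omega)
        have h3 := ht i
        have h4 := hrec i (by omega)
        push_cast at h2 ⊢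
        have e1 : (i : ℤ) + 1 + 1 = i + 2 := by ring
        rw [e1, h3, h2, h1, ← h4]
        ring
  obtain ⟨P, hP1, hP2, hP3⟩ := core b g t ht d
  have htau : ∀ i, i ≤ d + 1 → pr (fun i : ℕ => t i) i = tau θ i := by
    intro i hi
    rw [pr, tau]
    refine Finset.prod_congr rfl fun h hh => ?_
    rw [Finset.mem_range] at hh
    rw [hteq h (by omega)]
  have hrho : ∀ i, i ≤ d + 1 → pr (fun i : ℕ => t (d - i)) i = rho θ d i := by
    intro i hi
    rw [pr, rho]
    refine Finset.prod_congr rfl fun h hh => ?_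
    rw [Finset.mem_range] at hh
    have e : (d : ℤ) - h = ((d - h : ℕ) : ℤ) := by omega
    rw [e, hteq (d - h) (by omega)]
  have hmaps := maps_degreeLE P hP3 d
  refine ⟨P.restrict hmaps, ?_, ?_, ?_, ?_, ?_⟩
  · intro h0
    have hv : tau θ 1 ∈ degreeLE K (d : WithBot ℕ) := by
      rw [mem_degreeLE, ← htau 1 (by omega), pr_degree]
      norm_cast
    have h1 : (P.restrict hmaps ⟨tau θ 1, hv⟩ : K[X]) = 0 := by rw [h0]; rfl
    rw [LinearMap.coe_restrict_apply] at h1
    have h2 := hP1 1
    rw [htau 1 (by omega)] at h2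
    simp only [Nat.sub_self] at h2
    rw [h2, xs_one, htau 0 (by omega)] at h1
    have h3 : tau θ 0 = 1 := by simp [tau]
    rw [h3, smul_eq_C_mul, mul_one, C_eq_zero, sub_eq_zero, ht0, hteq d le_rfl] at h1
    have := hθ 0 d (by omega) le_rfl h1
    omega
  · intro v hv
    apply Subtype.ext
    rw [LinearMap.coe_restrict_apply, hv, ← htau 0 (by omega), hP1, xs_zero, zero_smul]
    rfl
  · intro v hv
    apply Subtype.ext
    rw [LinearMap.coe_restrict_apply, hv, ← hrho 0 (by omega), hP2, xs_zero, zero_smul]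
    rfl
  · intro i h1 h2 v hv
    rw [LinearMap.coe_restrict_apply, hv, ← htau i (by omega), hP1, htau (i - 1) (by omega)]
    exact Submodule.smul_mem _ _ (Submodule.mem_span_singleton_self _)
  · intro i h1 h2 v hv
    rw [LinearMap.coe_restrict_apply, hv, ← hrho i (by omega), hP2, hrho (i - 1) (by omega)]
    exact Submodule.smul_mem _ _ (Submodule.mem_span_singleton_self _)

end Pool.Agent.Results.MP_87e037_al.Exists
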